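import Pool.Agent.Helper38.Foliated.Bridge

/-!
# A canonical algebraically integrable foliation that no morphism induces

Let `X` be the blow-up of `P^1 x P^1 x P^1` in the two points `(0, 0, 0)` and `(∞, ∞, ∞)`, and let
`F` be the foliation of rank one given by the vector field `x ∂x + y ∂y + z ∂z`.  Then `X` is a
smooth projective threefold, `F` is algebraically integrable (its leaves are the fibres of the
rational map `(y / x, z / x)`) and has canonical singularities, but no morphism to a variety
induces `F`.  In the formal proof `X` is `Proj` of the algebra of the monoid generated by the 25
lattice points of the polytope of `X`.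
-/

open AlgebraicGeometry Pool.Agent.Helper38.Foliated

namespace Pool.Agent.Results.MP_eb6682_ag.CanonicalNotMorphism

/-- There are a smooth projective complex threefold `X` and an algebraically integrable foliation
`F` of rank one on `X` with canonical singularities such that no morphism from `X` to a variety
induces `F`. -/
theorem result : ∃ (V : Variety) (F : Foliation V),
    V.IsProjective ∧ SmoothOfRelativeDimension 3 V.str ∧ F.rank = 1 ∧
      F.AlgebraicallyIntegrable ∧ F.IsCanonical ∧ ¬ F.InducedByMorphism :=
  ⟨VN, FN, projective_VN, Pool.Agent.Helper38.Fol.smoothX, rank_FN, algInt_FN, canonical_FN,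
    not_morphism_FN⟩

end Pool.Agent.Results.MP_eb6682_ag.CanonicalNotMorphism
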